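import Pool.Agent.Helper6.CX.Goals

/-!
# Project CX (MP_75608d_al), packet 5887: GAD, facts on gadgets
-/

namespace Pool.Agent.Helper7.CX

open Equiv Pool.Agent.Helper6.CX

theorem rot_pow_val {n : ℕ} (i : ℕ) (r : Fin n) :
    (((finRotate n) ^ i) r).val = (r.val + i) % n := by
  induction i generalizing r with
  | zero => simp [Nat.mod_eq_of_lt r.2]
  | succ i ih =>
    obtain ⟨m, rfl⟩ : ∃ m, n = m + 1 := ⟨n - 1, by have := r.2; omega⟩
    rw [pow_succ, Perm.mul_apply, ih]
    rcases eq_or_ne r (Fin.last m) with h | h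
    · rw [h, finRotate_last]
      simp only [Fin.val_zero, Fin.val_last, zero_add]
      rw [show m + (i + 1) = i + (m + 1) by ring, Nat.add_mod_right]
    · rw [coe_finRotate_of_ne_last h]
      congr 1
      ring

theorem gad_succ {n b : ℕ} (p q : Fin (b + 1) → Fin n) :
    gad p q = swap (p 0) (q 0) * gad (fun i => p i.succ) (fun i => q i.succ) := by
  unfold gad
  rw [List.ofFn_succ, List.prod_cons]

theorem gad_facts {n : ℕ} : ∀ (b : ℕ) (p q : Fin b → Fin n), (∀ i j, p i ≠ q j) →
    (∀ i j, p i = p j → i = j) → (∀ i j, q i = q j → i = j) →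
    (∀ i, gad p q (p i) = q i) ∧ (∀ i, gad p q (q i) = p i) ∧
      ∀ r, (∀ i, r ≠ p i ∧ r ≠ q i) → gad p q r = r := by
  intro b
  induction b with
  | zero =>
    intro p q _ _ _
    exact ⟨fun i => i.elim0, fun i => i.elim0, fun r _ => by simp [gad]⟩
  | succ b ih =>
    intro p q h1 h2 h3
    obtain ⟨i1, i2, i3⟩ := ih (fun i => p i.succ) (fun i => q i.succ) (fun i j => h1 _ _)
      (fun i j h => Fin.succ_injective _ (h2 _ _ h)) (fun i j h => Fin.succ_injective _ (h3 _ _ h))
    have hp0 : gad (fun i => p i.succ) (fun i => q i.succ) (p 0) = p 0 :=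
      i3 _ fun i => ⟨fun h => absurd (h2 _ _ h) (Fin.succ_ne_zero i).symm, h1 _ _⟩
    have hq0 : gad (fun i => p i.succ) (fun i => q i.succ) (q 0) = q 0 :=
      i3 _ fun i => ⟨fun h => h1 _ _ h.symm, fun h => absurd (h3 _ _ h) (Fin.succ_ne_zero i).symm⟩
    rw [gad_succ]
    refine ⟨fun i => ?_, fun i => ?_, fun r hr => ?_⟩
    · rw [Perm.mul_apply]
      refine Fin.cases ?_ (fun i => ?_) i
      · rw [hp0, swap_apply_left]
      · rw [i1 i, swap_apply_of_ne_of_ne (h1 _ _).symm
          fun h => absurd (h3 _ _ h) (Fin.succ_ne_zero i)]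
    · rw [Perm.mul_apply]
      refine Fin.cases ?_ (fun i => ?_) i
      · rw [hq0, swap_apply_right]
      · rw [i2 i, swap_apply_of_ne_of_ne (fun h => absurd (h2 _ _ h) (Fin.succ_ne_zero i))
          (h1 _ _)]
    · rw [Perm.mul_apply, i3 r fun i => hr i.succ, swap_apply_of_ne_of_ne (hr 0).1 (hr 0).2]

theorem thm : Pool.Agent.Helper6.CX.S_GAD := by
  intro n b G p q hG hS
  obtain ⟨s1, s2⟩ := hS
  have hpq : ∀ i j, p i ≠ q j := by
    intro i j h
    have hv := congrArg Fin.val h
    rcases lt_trichotomy i j with hij | hij | hij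
    · have := s2 i j hij
      have := (s1 i).2.1
      have := (s1 j).2.1
      omega
    · subst hij
      have := (s1 i).2.1
      omega
    · have := s2 j i hij
      omega
  have hp : ∀ i j, p i = p j → i = j := by
    intro i j h
    have hv := congrArg Fin.val h
    rcases lt_trichotomy i j with hij | hij | hij
    · have := s2 i j hij
      have := (s1 i).2.1
      omega
    · exact hij
    · have := s2 j i hij
      have := (s1 j).2.1
      omega
  have hq : ∀ i j, q i = q j → i = j := by
    intro i j h
    have hv := congrArg Fin.val h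
    rcases lt_trichotomy i j with hij | hij | hij
    · have := s2 i j hij
      have := (s1 j).2.1
      omega
    · exact hij
    · have := s2 j i hij
      have := (s1 i).2.1
      omega
  obtain ⟨g1, g2, g3⟩ := gad_facts b p q hpq hp hq
  refine ⟨?_, g1, g2, g3, ?_⟩
  · ext r
    rw [Perm.mul_apply, Perm.one_apply]
    by_cases h : ∀ i, r ≠ p i ∧ r ≠ q i
    · rw [g3 r h, g3 r h]
    · push Not at h
      obtain ⟨i, hi⟩ := h
      by_cases hri : r = p i
      · rw [hri, g1, g2]
      · rw [hi hri, g2, g1]
  · intro r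
    set S := (Finset.range G).filter fun i => ∃ k, ((finRotate n) ^ i) r = p k ∨
      ((finRotate n) ^ i) r = q k with hSd
    rcases S.eq_empty_or_nonempty with he | hne
    · rw [he]; simp
    set i0 := S.min' hne with hi0
    have hi0S : i0 ∈ S := S.min'_mem hne
    rw [hSd, Finset.mem_filter] at hi0S
    obtain ⟨-, k, hk⟩ := hi0S
    -- value of the later points
    have hval : ∀ i ∈ S, ∀ v : ℕ, (((finRotate n) ^ i0) r).val = v → v + G < n →
        i0 ≤ i ∧ i < i0 + G ∧ (((finRotate n) ^ i) r).val = v + (i - i0) := by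
      intro i hi v hv hvn
      have h1 : i0 ≤ i := S.min'_le i hi
      rw [hSd, Finset.mem_filter, Finset.mem_range] at hi
      refine ⟨h1, by omega, ?_⟩
      have h2 : ((finRotate n) ^ i) r = ((finRotate n) ^ (i - i0)) (((finRotate n) ^ i0) r) := by
        rw [← Perm.mul_apply, ← pow_add, Nat.sub_add_cancel h1]
      rw [h2, rot_pow_val, hv, Nat.mod_eq_of_lt (by omega)]
    have hex : ∀ i ∈ S, ∃ k, (((finRotate n) ^ i) r).val = (p k).val ∨
        (((finRotate n) ^ i) r).val = (q k).val := by
      intro i hi
      rw [hSd, Finset.mem_filter] at hi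
      obtain ⟨-, k, hk⟩ := hi
      exact ⟨k, hk.imp (congrArg Fin.val) (congrArg Fin.val)⟩
    have hsub : S ⊆ {i0, i0 + ((q k).val - (p k).val)} := by
      intro i hi
      rw [Finset.mem_insert, Finset.mem_singleton]
      obtain ⟨k', hk'⟩ := hex i hi
      have sk := s1 k
      have sk' := s1 k'
      rcases hk with hk | hk
      · obtain ⟨a1, a2, a3⟩ := hval i hi (p k).val (congrArg Fin.val hk) (by omega)
        rcases lt_trichotomy k k' with hkk | hkk | hkk
        · have := s2 k k' hkk
          omega
        · subst hkk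
          omega
        · have := s2 k' k hkk
          omega
      · obtain ⟨a1, a2, a3⟩ := hval i hi (q k).val (congrArg Fin.val hk) (by omega)
        rcases lt_trichotomy k k' with hkk | hkk | hkk
        · have := s2 k k' hkk
          omega
        · subst hkk
          omega
        · have := s2 k' k hkk
          omega
    exact (Finset.card_le_card hsub).trans Finset.card_le_two

end Pool.Agent.Helper7.CX
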